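import Pool.Agent.Lib_MP_3de5be_an.REtf
import Pool.Agent.Lib_MP_008adc_co.Defs

/-!
# Piece RSTA: a real equiangular tight frame from a Hadamard matrix, dimension `n (n - 1) / 2`
-/

set_option autoImplicit false

namespace RealETF

open Matrix

/-- Rows and columns of a Hadamard matrix, over the reals. -/
theorem sta_rows {n : ℕ} {H : Matrix (Fin n) (Fin n) ℤ} (hH : HadCalc.IsHad H) (a b : Fin n) :
    ∑ s, (H a s : ℝ) * (H b s : ℝ) = if a = b then (n : ℝ) else 0 := by
  have h := congrFun (congrFun hH.2 a) b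
  rw [Matrix.mul_apply] at h
  simp only [Matrix.transpose_apply, Fintype.card_fin, Matrix.smul_apply, Matrix.one_apply,
    smul_eq_mul] at h
  have h' : ((∑ s, H a s * H b s : ℤ) : ℝ) = (((n : ℤ) * (if a = b then 1 else 0) : ℤ) : ℝ) := by
    rw [h]
  push_cast at h'
  rw [h']
  split_ifs <;> simp

theorem sta_cols {n : ℕ} (hn : 1 ≤ n) {H : Matrix (Fin n) (Fin n) ℤ} (hH : HadCalc.IsHad H)
    (s t : Fin n) :
    ∑ a, (H a s : ℝ) * (H a t : ℝ) = if s = t then (n : ℝ) else 0 := by
  have hn0 : (n : ℝ) ≠ 0 := by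
    have : (1 : ℝ) ≤ n := by exact_mod_cast hn
    linarith
  let K : Matrix (Fin n) (Fin n) ℝ := fun a s => (H a s : ℝ)
  have h1 : K * ((n : ℝ)⁻¹ • Kᵀ) = 1 := by
    ext a b
    rw [Matrix.mul_smul, Matrix.smul_apply, Matrix.mul_apply]
    have : ∑ s, K a s * Kᵀ s b = if a = b then (n : ℝ) else 0 := sta_rows hH a b
    rw [this, Matrix.one_apply]
    split_ifs <;> simp [hn0]
  have h2 : ((n : ℝ)⁻¹ • Kᵀ) * K = 1 := mul_eq_one_comm.mp h1
  have h3 := congrFun (congrFun h2 s) t
  rw [Matrix.smul_mul, Matrix.smul_apply, Matrix.mul_apply, Matrix.one_apply, smul_eq_mul] at h3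
  have h4 : ∑ a, Kᵀ s a * K a t = (n : ℝ) * (if s = t then 1 else 0) := by
    rw [← h3]
    field_simp
  have h5 : ∑ a, (H a s : ℝ) * (H a t : ℝ) = ∑ a, Kᵀ s a * K a t := rfl
  rw [h5, h4]
  split_ifs <;> simp

/-- The sum over the pairs `a < b` of a symmetric function. -/
theorem sta_sum {n : ℕ} (f : Fin n → Fin n → ℝ) (hf : ∀ a b, f a b = f b a) :
    ∑ k : {p : Fin n × Fin n // p.1 < p.2}, f k.1.1 k.1.2 =
      (∑ a, ∑ b, if a = b then 0 else f a b) / 2 := by
  have h1 : ∑ k : {p : Fin n × Fin n // p.1 < p.2}, f k.1.1 k.1.2 =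
      ∑ a, ∑ b, if a < b then f a b else 0 := by
    rw [← Finset.sum_product' (f := fun a b => if a < b then f a b else 0)]
    rw [Finset.univ_product_univ, ← Finset.sum_filter]
    rw [← Finset.sum_subtype_eq_sum_filter]
    refine Finset.sum_bij (fun k _ => ⟨k.1, k.2⟩) ?_ ?_ ?_ ?_
    · intro k _
      simp
    · intro a _ b _ h
      simpa using h
    · intro b _
      exact ⟨⟨b.1, b.2⟩, Finset.mem_univ _, rfl⟩
    · intro a _
      rfl
  have h2 : ∑ a, ∑ b, (if a = b then 0 else f a b) =
      (∑ a, ∑ b, if a < b then f a b else 0) + ∑ a, ∑ b, if b < a then f a b else 0 := by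
    rw [← Finset.sum_add_distrib]
    refine Finset.sum_congr rfl fun a _ => ?_
    rw [← Finset.sum_add_distrib]
    refine Finset.sum_congr rfl fun b _ => ?_
    rcases lt_trichotomy a b with h | h | h
    · rw [if_neg h.ne, if_pos h, if_neg h.asymm, add_zero]
    · subst h
      simp
    · rw [if_neg h.ne', if_neg h.asymm, if_pos h, zero_add]
  have h3 : ∑ a : Fin n, ∑ b : Fin n, (if b < a then f a b else 0) =
      ∑ a, ∑ b, if a < b then f a b else 0 := by
    rw [Finset.sum_comm]
    refine Finset.sum_congr rfl fun a _ => Finset.sum_congr rfl fun b _ => ?_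
    rw [hf b a]
  rw [h1, h2, h3]
  ring

theorem sta_card (n : ℕ) :
    Fintype.card {p : Fin n × Fin n // p.1 < p.2} = n * (n - 1) / 2 := by
  rw [Fintype.card_subtype]
  have h : (Finset.univ.filter fun p : Fin n × Fin n => p.1 < p.2).card =
      ∑ b : Fin n, (b : ℕ) := by
    rw [Finset.card_eq_sum_card_fiberwise (f := Prod.snd) (t := Finset.univ)
      (fun _ _ => Finset.mem_coe.2 (Finset.mem_univ _))]
    refine Finset.sum_congr rfl fun b _ => ?_
    have : (Finset.univ.filter fun p : Fin n × Fin n => p.1 < p.2).filter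
        (fun p => p.2 = b) = (Finset.Iio b).map ⟨fun a => (a, b), fun x y h => by
          simpa using h⟩ := by
      ext ⟨x, y⟩
      simp only [Finset.mem_filter, Finset.mem_univ, true_and, Finset.mem_map,
        Finset.mem_Iio, Function.Embedding.coeFn_mk, Prod.mk.injEq]
      constructor
      · rintro ⟨h, rfl⟩
        exact ⟨x, h, rfl, rfl⟩
      · rintro ⟨a, h, rfl, rfl⟩
        exact ⟨h, rfl⟩
    rw [this, Finset.card_map, Fin.card_Iio]
  rw [h, Fin.sum_univ_eq_sum_range (fun i => i) n, Finset.sum_range_id]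

/-- PROOF. Let `H` be a Hadamard matrix of order `n` (`HadCalc.IsHad`, so `H Hᵀ = n` and hence also
`Hᵀ H = n`). Vectors: `(p, s) ∈ Fin n × Fin n`. Coordinates: the subsets of `Fin n` with two
elements (`Finset.powersetCard 2 univ` as a subtype, or the non diagonal elements of `Sym2 (Fin n)`,
or pairs `a < b`), there are `n (n - 1) / 2` of them. The vector `(p, s)` has the entry
`H o s / √(n - 1)` in the coordinate `{p, o}`, `o ≠ p`, and `0` in the coordinates not containing `p`.
* Norm: `∑_{o ≠ p} 1 / (n - 1) = 1`.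
* Same `p`, `s ≠ s'`: `∑_{o ≠ p} H o s H o s' / (n - 1) = -H p s H p s' / (n - 1) = ± 1 / (n - 1)`
  (columns are orthogonal).
* `p ≠ p'`: only the coordinate `{p, p'}` contributes: `H p' s H p s' / (n - 1) = ± 1 / (n - 1)`.
* Tight: for the coordinates `{a, b} ≠ {a', b'}` the sum over `(p, s)` is, for `p` in both,
  `∑_s H o s H o' s = 0` because `o ≠ o'` (rows are orthogonal); for the same coordinate it is
  `2 n / (n - 1) = n ^ 2 / (n (n - 1) / 2)`.
* `(N - d) / (d (N - 1)) = 1 / (n - 1) ^ 2` for `N = n ^ 2`, `d = n (n - 1) / 2`. -/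
theorem steiner_minus {n : ℕ} (hn : 4 ≤ n) (h : HadCalc.HadOrder n) :
    cFrame (n ^ 2) (n * (n - 1) / 2) =
      Real.sqrt ((((n ^ 2 : ℕ) : ℝ) - (n * (n - 1) / 2 : ℕ)) /
        ((n * (n - 1) / 2 : ℕ) * (((n ^ 2 : ℕ) : ℝ) - 1))) := by
  classical
  obtain ⟨H, hH⟩ := h
  have hn4 : (4 : ℝ) ≤ n := by exact_mod_cast hn
  have hm : (0 : ℝ) < (n : ℝ) - 1 := by linarith
  have hm0 : (n : ℝ) - 1 ≠ 0 := hm.ne'
  have hn0 : (n : ℝ) ≠ 0 := by linarith
  have hd2 : n * (n - 1) / 2 * 2 = n * (n - 1) := by
    apply Nat.div_mul_cancel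
    have := (Nat.even_mul_pred_self n).two_dvd
    exact this
  have hdR : ((n * (n - 1) / 2 : ℕ) : ℝ) = (n : ℝ) * ((n : ℝ) - 1) / 2 := by
    have h1 : (((n * (n - 1) / 2 * 2 : ℕ)) : ℝ) = ((n * (n - 1) : ℕ) : ℝ) := by rw [hd2]
    rw [Nat.cast_mul, Nat.cast_mul, Nat.cast_sub (by omega : 1 ≤ n)] at h1
    push_cast at h1 ⊢
    linarith
  have hdpos : 1 ≤ n * (n - 1) / 2 := by
    have : 4 * 3 ≤ n * (n - 1) := Nat.mul_le_mul hn (by omega)
    omega
  have hbound : (((n ^ 2 : ℕ) : ℝ) - (n * (n - 1) / 2 : ℕ)) /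
      ((n * (n - 1) / 2 : ℕ) * (((n ^ 2 : ℕ) : ℝ) - 1)) = (1 / ((n : ℝ) - 1)) ^ 2 := by
    rw [hdR]
    push_cast
    have hp : (n : ℝ) + 1 ≠ 0 := by linarith
    have hsq : (n : ℝ) ^ 2 - 1 = ((n : ℝ) - 1) * ((n : ℝ) + 1) := by ring
    rw [hsq]
    field_simp
    ring
  have hsqrt : Real.sqrt ((((n ^ 2 : ℕ) : ℝ) - (n * (n - 1) / 2 : ℕ)) /
      ((n * (n - 1) / 2 : ℕ) * (((n ^ 2 : ℕ) : ℝ) - 1))) = 1 / ((n : ℝ) - 1) := by
    rw [hbound]
    exact Real.sqrt_sq (by positivity)
  -- entries
  let h' : Fin n → Fin n → ℝ := fun a s => (H a s : ℝ)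
  have hsq1 : ∀ a s, h' a s * h' a s = 1 := by
    intro a s
    rcases hH.1 a s with h | h <;> simp [h', h]
  have habs : ∀ a s, |h' a s| = 1 := by
    intro a s
    rcases hH.1 a s with h | h <;> simp [h', h]
  have hrow : ∀ a b, ∑ s, h' a s * h' b s = if a = b then (n : ℝ) else 0 := sta_rows hH
  have hcol : ∀ s t, ∑ a, h' a s * h' a t = if s = t then (n : ℝ) else 0 :=
    sta_cols (by omega) hH
  let A : Fin n × Fin n → Fin n → Fin n → ℝ := fun q a b =>
    (if q.1 = a then h' b q.2 else 0) + (if q.1 = b then h' a q.2 else 0)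
  have hAsymm : ∀ q a b, A q a b = A q b a := fun q a b => add_comm _ _
  have hinner : ∀ q r, ∑ k : {p : Fin n × Fin n // p.1 < p.2},
      A q k.1.1 k.1.2 * A r k.1.1 k.1.2 =
      if q.1 = r.1 then (if q.2 = r.2 then (n : ℝ) else 0) - h' q.1 q.2 * h' q.1 r.2
      else h' r.1 q.2 * h' q.1 r.2 := by
    intro q r
    rw [sta_sum (fun a b => A q a b * A r a b) (fun a b => by
      show A q a b * A r a b = A q b a * A r b a
      rw [hAsymm q a b, hAsymm r a b])]
    have hexp : ∀ a b : Fin n, (if a = b then 0 else A q a b * A r a b) =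
        ((if q.1 = a then (if a = b then 0 else h' b q.2 * (if r.1 = a then h' b r.2 else 0)) else 0) +
         (if q.1 = b then (if a = b then 0 else h' a q.2 * (if r.1 = b then h' a r.2 else 0)) else 0)) +
        ((if q.1 = a then (if a = b then 0 else h' b q.2 * (if r.1 = b then h' a r.2 else 0)) else 0) +
         (if q.1 = b then (if a = b then 0 else h' a q.2 * (if r.1 = a then h' b r.2 else 0)) else 0)) := by
      intro a b
      simp only [A]
      split_ifs <;> simp_all
    simp only [hexp]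
    simp only [Finset.sum_add_distrib]
    have e1 : ∑ a : Fin n, ∑ b : Fin n, (if q.1 = a then
        (if a = b then 0 else h' b q.2 * (if r.1 = a then h' b r.2 else 0)) else 0) =
        if q.1 = r.1 then (if q.2 = r.2 then (n : ℝ) else 0) - h' q.1 q.2 * h' q.1 r.2 else 0 := by
      rw [Finset.sum_eq_single q.1]
      · simp only [if_true]
        by_cases hqr : q.1 = r.1
        · rw [if_pos hqr, ← hcol q.2 r.2, ← Finset.sum_erase_eq_sub (Finset.mem_univ q.1)]
          rw [← Finset.sum_erase (s := Finset.univ) (a := q.1) (by simp)]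
          refine Finset.sum_congr rfl fun b hb => ?_
          have hb' : q.1 ≠ b := fun h => (Finset.mem_erase.1 hb).1 h.symm
          rw [if_neg hb', if_pos hqr.symm]
        · rw [if_neg hqr]
          refine Finset.sum_eq_zero fun b _ => ?_
          have hrq : ¬ r.1 = q.1 := fun h => hqr h.symm
          rw [if_neg hrq, mul_zero, ite_self]
      · intro a _ ha
        refine Finset.sum_eq_zero fun b _ => ?_
        rw [if_neg (fun h => ha h.symm)]
      · intro h
        exact absurd (Finset.mem_univ _) h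
    have e2 : ∑ a : Fin n, ∑ b : Fin n, (if q.1 = b then
        (if a = b then 0 else h' a q.2 * (if r.1 = b then h' a r.2 else 0)) else 0) =
        if q.1 = r.1 then (if q.2 = r.2 then (n : ℝ) else 0) - h' q.1 q.2 * h' q.1 r.2 else 0 := by
      rw [Finset.sum_comm, ← e1]
      refine Finset.sum_congr rfl fun a _ => Finset.sum_congr rfl fun b _ => ?_
      simp only [eq_comm (a := b) (b := a)]
    have e3 : ∑ a : Fin n, ∑ b : Fin n, (if q.1 = a then
        (if a = b then 0 else h' b q.2 * (if r.1 = b then h' a r.2 else 0)) else 0) =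
        if q.1 = r.1 then 0 else h' r.1 q.2 * h' q.1 r.2 := by
      rw [Finset.sum_eq_single q.1]
      · rw [Finset.sum_eq_single r.1]
        · simp
        · intro b _ hb
          have hrb : ¬ r.1 = b := fun h => hb h.symm
          rw [if_neg hrb, mul_zero, ite_self, if_pos rfl]
        · intro h
          exact absurd (Finset.mem_univ _) h
      · intro a _ ha
        refine Finset.sum_eq_zero fun b _ => ?_
        rw [if_neg (fun h => ha h.symm)]
      · intro h
        exact absurd (Finset.mem_univ _) h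
    have e4 : ∑ a : Fin n, ∑ b : Fin n, (if q.1 = b then
        (if a = b then 0 else h' a q.2 * (if r.1 = a then h' b r.2 else 0)) else 0) =
        if q.1 = r.1 then 0 else h' r.1 q.2 * h' q.1 r.2 := by
      rw [Finset.sum_comm, ← e3]
      refine Finset.sum_congr rfl fun a _ => Finset.sum_congr rfl fun b _ => ?_
      simp only [eq_comm (a := b) (b := a)]
    rw [e1, e2, e3, e4]
    split_ifs <;> ring
  have htight : ∀ k l : {p : Fin n × Fin n // p.1 < p.2},
      ∑ q : Fin n × Fin n, A q k.1.1 k.1.2 * A q l.1.1 l.1.2 = if k = l then 2 * (n : ℝ) else 0 := by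
    rintro ⟨⟨a, b⟩, hab⟩ ⟨⟨c, d⟩, hcd⟩
    simp only at hab hcd
    rw [← Finset.univ_product_univ, Finset.sum_product]
    have hexp : ∀ p : Fin n, ∑ s : Fin n, A (p, s) a b * A (p, s) c d =
        ((if p = a then (if p = c then (if b = d then (n : ℝ) else 0) else 0) else 0) +
         (if p = a then (if p = d then (if b = c then (n : ℝ) else 0) else 0) else 0)) +
        ((if p = b then (if p = c then (if a = d then (n : ℝ) else 0) else 0) else 0) +
         (if p = b then (if p = d then (if a = c then (n : ℝ) else 0) else 0) else 0)) := by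
      intro p
      rw [← hrow b d, ← hrow b c, ← hrow a d, ← hrow a c]
      have : ∀ s : Fin n, A (p, s) a b * A (p, s) c d =
        ((if p = a then (if p = c then h' b s * h' d s else 0) else 0) +
         (if p = a then (if p = d then h' b s * h' c s else 0) else 0)) +
        ((if p = b then (if p = c then h' a s * h' d s else 0) else 0) +
         (if p = b then (if p = d then h' a s * h' c s else 0) else 0)) := by
        intro s
        simp only [A]
        split_ifs <;> ring
      simp only [this, Finset.sum_add_distrib]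
      congr 1
      · congr 1
        · split_ifs <;> simp
        · split_ifs <;> simp
      · congr 1
        · split_ifs <;> simp
        · split_ifs <;> simp
    simp only [hexp, Finset.sum_add_distrib, Finset.mem_univ, if_true, Finset.sum_ite_eq']
    by_cases hac : a = c
    · subst hac
      have had : a ≠ d := hcd.ne
      by_cases hbd : b = d
      · subst hbd
        have hba : b ≠ a := hab.ne'
        simp [had, hba]
        ring
      · have hba : b ≠ a := hab.ne'
        simp [had, hbd, hba]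
    · by_cases hbd : b = d
      · subst hbd
        have : a ≠ b := hab.ne
        simp [hac, this]
      · have hne : ¬(a = d ∧ b = c) := by
          rintro ⟨rfl, rfl⟩
          exact absurd hab hcd.asymm
        by_cases had : a = d
        · have hbc : b ≠ c := fun h => hne ⟨had, h⟩
          simp [hac, hbd, hbc]
        · simp [hac, hbd, had]
  -- conclusion
  have hN : 2 ≤ n ^ 2 := by nlinarith
  refine cFrame_eq (ι := Fin n × Fin n) (κ := {p : Fin n × Fin n // p.1 < p.2}) hN hdpos
    (by rw [Fintype.card_prod, Fintype.card_fin, sq]) (sta_card n)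
    (fun q k => A q k.1.1 k.1.2 / Real.sqrt ((n : ℝ) - 1)) ?_ ?_ ?_
  · intro q
    have h1 := hinner q q
    simp only [if_true] at h1
    rw [hsq1] at h1
    have h2 : ∀ k : {p : Fin n × Fin n // p.1 < p.2},
        (A q k.1.1 k.1.2 / Real.sqrt ((n : ℝ) - 1)) ^ 2 =
        (A q k.1.1 k.1.2 * A q k.1.1 k.1.2) / ((n : ℝ) - 1) := by
      intro k
      rw [div_pow, Real.sq_sqrt hm.le, sq]
    simp only [h2]
    rw [← Finset.sum_div, h1, div_self hm0]
  · intro q r hqr
    have h2 : ∀ k : {p : Fin n × Fin n // p.1 < p.2},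
        (A q k.1.1 k.1.2 / Real.sqrt ((n : ℝ) - 1)) * (A r k.1.1 k.1.2 / Real.sqrt ((n : ℝ) - 1)) =
        (A q k.1.1 k.1.2 * A r k.1.1 k.1.2) / ((n : ℝ) - 1) := by
      intro k
      rw [div_mul_div_comm, Real.mul_self_sqrt hm.le]
    simp only [h2]
    rw [← Finset.sum_div, hinner, hsqrt, abs_div, abs_of_pos hm]
    congr 1
    by_cases h1 : q.1 = r.1
    · have h3 : q.2 ≠ r.2 := fun h => hqr (Prod.ext h1 h)
      rw [if_pos h1, if_neg h3, zero_sub, abs_neg, abs_mul, habs, habs, one_mul]
    · rw [if_neg h1, abs_mul, habs, habs, one_mul]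
  · intro k l
    have h2 : ∀ q : Fin n × Fin n,
        (A q k.1.1 k.1.2 / Real.sqrt ((n : ℝ) - 1)) * (A q l.1.1 l.1.2 / Real.sqrt ((n : ℝ) - 1)) =
        (A q k.1.1 k.1.2 * A q l.1.1 l.1.2) / ((n : ℝ) - 1) := by
      intro q
      rw [div_mul_div_comm, Real.mul_self_sqrt hm.le]
    simp only [h2]
    rw [← Finset.sum_div, htight, hdR]
    split_ifs
    · push_cast
      field_simp
    · rw [zero_div]

end RealETF
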