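import Pool.Agent.Lib_MP_3de5be_an.RStA
import Pool.Agent.Lib_MP_008adc_co.Defs

/-!
# Piece RSTB: a real equiangular tight frame from a Hadamard matrix, dimension `n (n + 1) / 2`

First read the docstring of `steiner_minus` in `RStA.lean`.
-/

set_option autoImplicit false

namespace RealETF

/-- The entries of the vector `q` in the coordinates `{a, b}`, without normalisation. -/
private def stbA {n : ℕ} (h' : Fin n → Fin n → ℝ) (q : Fin n × Fin n) (a b : Fin n) : ℝ :=
  (if q.1 = a then h' b q.2 else 0) + (if q.1 = b then h' a q.2 else 0)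

private theorem stb_inner {n : ℕ} (h' : Fin n → Fin n → ℝ)
    (hcol : ∀ s t, ∑ a, h' a s * h' a t = if s = t then (n : ℝ) else 0) (q r : Fin n × Fin n) :
    ∑ k : {p : Fin n × Fin n // p.1 < p.2}, stbA h' q k.1.1 k.1.2 * stbA h' r k.1.1 k.1.2 =
      if q.1 = r.1 then (if q.2 = r.2 then (n : ℝ) else 0) - h' q.1 q.2 * h' q.1 r.2
      else h' r.1 q.2 * h' q.1 r.2 := by
  have hAsymm : ∀ q a b, stbA h' q a b = stbA h' q b a := fun q a b => add_comm _ _
  rw [sta_sum (fun a b => stbA h' q a b * stbA h' r a b) (fun a b => by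
    show stbA h' q a b * stbA h' r a b = stbA h' q b a * stbA h' r b a
    rw [hAsymm q a b, hAsymm r a b])]
  have hexp : ∀ a b : Fin n, (if a = b then 0 else stbA h' q a b * stbA h' r a b) =
      ((if q.1 = a then (if a = b then 0 else h' b q.2 * (if r.1 = a then h' b r.2 else 0)) else 0) +
       (if q.1 = b then (if a = b then 0 else h' a q.2 * (if r.1 = b then h' a r.2 else 0)) else 0)) +
      ((if q.1 = a then (if a = b then 0 else h' b q.2 * (if r.1 = b then h' a r.2 else 0)) else 0) +
       (if q.1 = b then (if a = b then 0 else h' a q.2 * (if r.1 = a then h' b r.2 else 0)) else 0)) := by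
    intro a b
    simp only [stbA]
    split_ifs <;> simp_all
  simp only [hexp]
  simp only [Finset.sum_add_distrib]
  have e1 : ∑ a : Fin n, ∑ b : Fin n, (if q.1 = a then
      (if a = b then 0 else h' b q.2 * (if r.1 = a then h' b r.2 else 0)) else 0) =
      if q.1 = r.1 then (if q.2 = r.2 then (n : ℝ) else 0) - h' q.1 q.2 * h' q.1 r.2 else 0 := by
    rw [Finset.sum_eq_single q.1]
    · simp only [if_true]
      by_cases hqr : q.1 = r.1
      · rw [if_pos hqr, ← hcol q.2 r.2, ← Finset.sum_erase_eq_sub (Finset.mem_univ q.1)]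
        rw [← Finset.sum_erase (s := Finset.univ) (a := q.1) (by simp)]
        refine Finset.sum_congr rfl fun b hb => ?_
        have hb' : q.1 ≠ b := fun h => (Finset.mem_erase.1 hb).1 h.symm
        rw [if_neg hb', if_pos hqr.symm]
      · rw [if_neg hqr]
        refine Finset.sum_eq_zero fun b _ => ?_
        have hrq : ¬ r.1 = q.1 := fun h => hqr h.symm
        rw [if_neg hrq, mul_zero, ite_self]
    · intro a _ ha
      refine Finset.sum_eq_zero fun b _ => ?_
      rw [if_neg (fun h => ha h.symm)]
    · intro h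
      exact absurd (Finset.mem_univ _) h
  have e2 : ∑ a : Fin n, ∑ b : Fin n, (if q.1 = b then
      (if a = b then 0 else h' a q.2 * (if r.1 = b then h' a r.2 else 0)) else 0) =
      if q.1 = r.1 then (if q.2 = r.2 then (n : ℝ) else 0) - h' q.1 q.2 * h' q.1 r.2 else 0 := by
    rw [Finset.sum_comm, ← e1]
    refine Finset.sum_congr rfl fun a _ => Finset.sum_congr rfl fun b _ => ?_
    simp only [eq_comm (a := b) (b := a)]
  have e3 : ∑ a : Fin n, ∑ b : Fin n, (if q.1 = a then
      (if a = b then 0 else h' b q.2 * (if r.1 = b then h' a r.2 else 0)) else 0) =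
      if q.1 = r.1 then 0 else h' r.1 q.2 * h' q.1 r.2 := by
    rw [Finset.sum_eq_single q.1]
    · rw [Finset.sum_eq_single r.1]
      · simp
      · intro b _ hb
        have hrb : ¬ r.1 = b := fun h => hb h.symm
        rw [if_neg hrb, mul_zero, ite_self, if_pos rfl]
      · intro h
        exact absurd (Finset.mem_univ _) h
    · intro a _ ha
      refine Finset.sum_eq_zero fun b _ => ?_
      rw [if_neg (fun h => ha h.symm)]
    · intro h
      exact absurd (Finset.mem_univ _) h
  have e4 : ∑ a : Fin n, ∑ b : Fin n, (if q.1 = b then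
      (if a = b then 0 else h' a q.2 * (if r.1 = a then h' b r.2 else 0)) else 0) =
      if q.1 = r.1 then 0 else h' r.1 q.2 * h' q.1 r.2 := by
    rw [Finset.sum_comm, ← e3]
    refine Finset.sum_congr rfl fun a _ => Finset.sum_congr rfl fun b _ => ?_
    simp only [eq_comm (a := b) (b := a)]
  rw [e1, e2, e3, e4]
  split_ifs <;> ring

private theorem stb_tight {n : ℕ} (h' : Fin n → Fin n → ℝ)
    (hrow : ∀ a b, ∑ s, h' a s * h' b s = if a = b then (n : ℝ) else 0)
    (k l : {p : Fin n × Fin n // p.1 < p.2}) :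
    ∑ q : Fin n × Fin n, stbA h' q k.1.1 k.1.2 * stbA h' q l.1.1 l.1.2 =
      if k = l then 2 * (n : ℝ) else 0 := by
  obtain ⟨⟨a, b⟩, hab⟩ := k
  obtain ⟨⟨c, d⟩, hcd⟩ := l
  simp only at hab hcd
  rw [← Finset.univ_product_univ, Finset.sum_product]
  have hexp : ∀ p : Fin n, ∑ s : Fin n, stbA h' (p, s) a b * stbA h' (p, s) c d =
      ((if p = a then (if p = c then (if b = d then (n : ℝ) else 0) else 0) else 0) +
       (if p = a then (if p = d then (if b = c then (n : ℝ) else 0) else 0) else 0)) +
      ((if p = b then (if p = c then (if a = d then (n : ℝ) else 0) else 0) else 0) +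
       (if p = b then (if p = d then (if a = c then (n : ℝ) else 0) else 0) else 0)) := by
    intro p
    rw [← hrow b d, ← hrow b c, ← hrow a d, ← hrow a c]
    have : ∀ s : Fin n, stbA h' (p, s) a b * stbA h' (p, s) c d =
      ((if p = a then (if p = c then h' b s * h' d s else 0) else 0) +
       (if p = a then (if p = d then h' b s * h' c s else 0) else 0)) +
      ((if p = b then (if p = c then h' a s * h' d s else 0) else 0) +
       (if p = b then (if p = d then h' a s * h' c s else 0) else 0)) := by
      intro s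
      simp only [stbA]
      split_ifs <;> ring
    simp only [this, Finset.sum_add_distrib]
    congr 1
    · congr 1
      · split_ifs <;> simp
      · split_ifs <;> simp
    · congr 1
      · split_ifs <;> simp
      · split_ifs <;> simp
  simp only [hexp, Finset.sum_add_distrib, Finset.mem_univ, if_true, Finset.sum_ite_eq']
  by_cases hac : a = c
  · subst hac
    have had : a ≠ d := hcd.ne
    by_cases hbd : b = d
    · subst hbd
      have hba : b ≠ a := hab.ne'
      simp [had, hba]
      ring
    · have hba : b ≠ a := hab.ne'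
      simp [had, hbd, hba]
  · by_cases hbd : b = d
    · subst hbd
      have : a ≠ b := hab.ne
      simp [hac, this]
    · have hne : ¬(a = d ∧ b = c) := by
        rintro ⟨rfl, rfl⟩
        exact absurd hab hcd.asymm
      by_cases had : a = d
      · have hbc : b ≠ c := fun h => hne ⟨had, h⟩
        simp [hac, hbd, hbc]
      · simp [hac, hbd, had]

/-- PROOF. The same with the coordinates `{p, o}` for all unordered pairs with repetition
(`Sym2 (Fin n)`, `n (n + 1) / 2` coordinates): the entry of `(p, s)` in the coordinate `{p, o}` is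
`H o s / √(n + 1)` for `o ≠ p` and `√2 * H p s / √(n + 1)` for `o = p`.
* Norm: `(n - 1 + 2) / (n + 1) = 1`.
* Same `p`, `s ≠ s'`: `(-H p s H p s' + 2 H p s H p s') / (n + 1) = ± 1 / (n + 1)`.
* `p ≠ p'`: `H p' s H p s' / (n + 1)`.
* Tight: different coordinates as before (`{a, a}` and `{a, b}`: `√2 ∑_s H a s H b s = 0`); the same
  coordinate: `2 n / (n + 1)` in both cases.
* `(N - d) / (d (N - 1)) = 1 / (n + 1) ^ 2` for `d = n (n + 1) / 2`. -/
theorem steiner_plus {n : ℕ} (hn : 4 ≤ n) (h : HadCalc.HadOrder n) :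
    cFrame (n ^ 2) (n * (n + 1) / 2) =
      Real.sqrt ((((n ^ 2 : ℕ) : ℝ) - (n * (n + 1) / 2 : ℕ)) /
        ((n * (n + 1) / 2 : ℕ) * (((n ^ 2 : ℕ) : ℝ) - 1))) := by
  classical
  obtain ⟨H, hH⟩ := h
  have hn4 : (4 : ℝ) ≤ n := by exact_mod_cast hn
  have hm : (0 : ℝ) < (n : ℝ) + 1 := by linarith
  have hm0 : (n : ℝ) + 1 ≠ 0 := hm.ne'
  have hn0 : (n : ℝ) ≠ 0 := by linarith
  have hd2 : n * (n + 1) / 2 * 2 = n * (n + 1) := by
    apply Nat.div_mul_cancel
    exact (Nat.even_mul_succ_self n).two_dvd
  have hdR : ((n * (n + 1) / 2 : ℕ) : ℝ) = (n : ℝ) * ((n : ℝ) + 1) / 2 := by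
    have h1 : (((n * (n + 1) / 2 * 2 : ℕ)) : ℝ) = ((n * (n + 1) : ℕ) : ℝ) := by rw [hd2]
    push_cast at h1 ⊢
    linarith
  have hdpos : 1 ≤ n * (n + 1) / 2 := by
    have : 4 * 5 ≤ n * (n + 1) := Nat.mul_le_mul hn (by omega)
    omega
  have hbound : (((n ^ 2 : ℕ) : ℝ) - (n * (n + 1) / 2 : ℕ)) /
      ((n * (n + 1) / 2 : ℕ) * (((n ^ 2 : ℕ) : ℝ) - 1)) = (1 / ((n : ℝ) + 1)) ^ 2 := by
    rw [hdR]
    push_cast
    have hp : (n : ℝ) - 1 ≠ 0 := by
      have : (0 : ℝ) < (n : ℝ) - 1 := by linarith
      exact this.ne'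
    have hsq : (n : ℝ) ^ 2 - 1 = ((n : ℝ) - 1) * ((n : ℝ) + 1) := by ring
    rw [hsq]
    field_simp
    ring
  have hsqrt : Real.sqrt ((((n ^ 2 : ℕ) : ℝ) - (n * (n + 1) / 2 : ℕ)) /
      ((n * (n + 1) / 2 : ℕ) * (((n ^ 2 : ℕ) : ℝ) - 1))) = 1 / ((n : ℝ) + 1) := by
    rw [hbound]
    exact Real.sqrt_sq (by positivity)
  obtain ⟨h', hh'⟩ : ∃ h' : Fin n → Fin n → ℝ, h' = fun a s => (H a s : ℝ) := ⟨_, rfl⟩
  have hsq1 : ∀ a s, h' a s * h' a s = 1 := by
    intro a s
    rcases hH.1 a s with h | h <;> simp [hh', h]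
  have habs : ∀ a s, |h' a s| = 1 := by
    intro a s
    rcases hH.1 a s with h | h <;> simp [hh', h]
  have hrow : ∀ a b, ∑ s, h' a s * h' b s = if a = b then (n : ℝ) else 0 := by
    rw [hh']
    exact sta_rows hH
  have hcol : ∀ s t, ∑ a, h' a s * h' a t = if s = t then (n : ℝ) else 0 := by
    rw [hh']
    exact sta_cols (by omega) hH
  have hs2 : Real.sqrt 2 * Real.sqrt 2 = 2 := Real.mul_self_sqrt (by norm_num)
  -- the unnormalised entries
  obtain ⟨F, hF⟩ : ∃ F : Fin n × Fin n → ({p : Fin n × Fin n // p.1 < p.2} ⊕ Fin n) → ℝ,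
      F = fun q k => Sum.elim (fun k => stbA h' q k.1.1 k.1.2)
        (fun a => Real.sqrt 2 * (if q.1 = a then h' a q.2 else 0)) k := ⟨_, rfl⟩
  have hFl : ∀ q k, F q (Sum.inl k) = stbA h' q k.1.1 k.1.2 := fun q k => by rw [hF]; rfl
  have hFr : ∀ q a, F q (Sum.inr a) = Real.sqrt 2 * (if q.1 = a then h' a q.2 else 0) :=
    fun q k => by rw [hF]; rfl
  have hinner : ∀ q r, ∑ k, F q k * F r k =
      if q.1 = r.1 then (if q.2 = r.2 then (n : ℝ) else 0) + h' q.1 q.2 * h' q.1 r.2
      else h' r.1 q.2 * h' q.1 r.2 := by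
    intro q r
    rw [Fintype.sum_sum_type]
    simp only [hFl, hFr]
    rw [stb_inner h' hcol q r]
    have e : ∑ a : Fin n, Real.sqrt 2 * (if q.1 = a then h' a q.2 else 0) *
        (Real.sqrt 2 * (if r.1 = a then h' a r.2 else 0)) =
        if q.1 = r.1 then 2 * (h' q.1 q.2 * h' q.1 r.2) else 0 := by
      rw [Finset.sum_eq_single q.1]
      · by_cases hqr : q.1 = r.1
        · rw [if_pos rfl, if_pos hqr, if_pos hqr.symm]
          calc Real.sqrt 2 * h' q.1 q.2 * (Real.sqrt 2 * h' q.1 r.2) =
              (Real.sqrt 2 * Real.sqrt 2) * (h' q.1 q.2 * h' q.1 r.2) := by ring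
            _ = _ := by rw [hs2]
        · have hrq : ¬ r.1 = q.1 := fun h => hqr h.symm
          rw [if_neg hrq, if_neg hqr, mul_zero, mul_zero]
      · intro a _ ha
        rw [if_neg (fun h => ha h.symm), mul_zero, zero_mul]
      · intro h
        exact absurd (Finset.mem_univ _) h
    rw [e]
    by_cases hqr : q.1 = r.1
    · simp only [if_pos hqr]
      ring
    · simp only [if_neg hqr, add_zero]
  have htight : ∀ k l, ∑ q : Fin n × Fin n, F q k * F q l = if k = l then 2 * (n : ℝ) else 0 := by
    intro k l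
    have hmix : ∀ (k : {p : Fin n × Fin n // p.1 < p.2}) (a : Fin n),
        ∑ q : Fin n × Fin n, stbA h' q k.1.1 k.1.2 *
          (Real.sqrt 2 * (if q.1 = a then h' a q.2 else 0)) = 0 := by
      rintro ⟨⟨c, d⟩, hcd⟩ a
      simp only at hcd ⊢
      rw [← Finset.univ_product_univ, Finset.sum_product]
      refine Finset.sum_eq_zero fun p _ => ?_
      by_cases hp : p = a
      · subst hp
        have : ∀ s : Fin n, stbA h' (p, s) c d * (Real.sqrt 2 * (if p = p then h' p s else 0)) =
            Real.sqrt 2 * ((if p = c then h' d s * h' p s else 0) +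
              (if p = d then h' c s * h' p s else 0)) := by
          intro s
          simp only [stbA, if_true]
          split_ifs <;> ring
        rw [Finset.sum_congr rfl fun s _ => this s]
        rw [← Finset.mul_sum, Finset.sum_add_distrib]
        by_cases hpc : p = c
        · subst hpc
          have hpd : ¬ p = d := hcd.ne
          have hdp : ¬ d = p := fun h => hpd h.symm
          simp only [if_true, if_neg hpd, Finset.sum_const_zero, add_zero]
          rw [hrow, if_neg hdp, mul_zero]
        · by_cases hpd : p = d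
          · subst hpd
            have hcp : ¬ c = p := fun h => hpc h.symm
            simp only [if_true, if_neg hpc, Finset.sum_const_zero, zero_add]
            rw [hrow, if_neg hcp, mul_zero]
          · simp [hpc, hpd]
      · refine Finset.sum_eq_zero fun s _ => ?_
        simp only [if_neg hp, mul_zero]
    rcases k with k | a
    · rcases l with l | b
      · simp only [hFl]
        rw [stb_tight h' hrow k l]
        simp only [Sum.inl.injEq]
      · simp only [hFl, hFr]
        rw [hmix k b]
        simp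
    · rcases l with l | b
      · simp only [hFl, hFr]
        have : ∀ q : Fin n × Fin n, Real.sqrt 2 * (if q.1 = a then h' a q.2 else 0) *
            stbA h' q l.1.1 l.1.2 = stbA h' q l.1.1 l.1.2 *
            (Real.sqrt 2 * (if q.1 = a then h' a q.2 else 0)) := fun q => mul_comm _ _
        simp only [this]
        rw [hmix l a]
        simp
      · simp only [hFr]
        rw [← Finset.univ_product_univ, Finset.sum_product]
        have : ∀ p s : Fin n, Real.sqrt 2 * (if (p, s).1 = a then h' a (p, s).2 else 0) *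
            (Real.sqrt 2 * (if (p, s).1 = b then h' b (p, s).2 else 0)) =
            if p = a then (if p = b then 2 * (h' a s * h' b s) else 0) else 0 := by
          intro p s
          simp only
          split_ifs
          · calc Real.sqrt 2 * h' a s * (Real.sqrt 2 * h' b s) =
                (Real.sqrt 2 * Real.sqrt 2) * (h' a s * h' b s) := by ring
              _ = _ := by rw [hs2]
          · ring
          · ring
          · ring
        simp only [this]
        have h3 : ∀ p : Fin n, ∑ s : Fin n,
            (if p = a then (if p = b then 2 * (h' a s * h' b s) else 0) else 0) =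
            if p = a then (if p = b then 2 * (if a = b then (n : ℝ) else 0) else 0) else 0 := by
          intro p
          split_ifs with h1 h2 h3
          · rw [← Finset.mul_sum, hrow, if_pos h3]
          · rw [← Finset.mul_sum, hrow, if_neg h3]
          · simp
          · simp
        simp only [h3, Finset.sum_ite_eq', Finset.mem_univ, if_true]
        by_cases hab : a = b
        · simp [hab]
        · simp [hab]
  -- conclusion
  have hN : 2 ≤ n ^ 2 := by nlinarith
  have hcard : Fintype.card ({p : Fin n × Fin n // p.1 < p.2} ⊕ Fin n) = n * (n + 1) / 2 := by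
    rw [Fintype.card_sum, sta_card, Fintype.card_fin]
    have h1 : n * (n - 1) / 2 * 2 = n * (n - 1) :=
      Nat.div_mul_cancel (Nat.even_mul_pred_self n).two_dvd
    have h2 : n * (n + 1) = n * (n - 1) + 2 * n := by
      obtain ⟨m, rfl⟩ : ∃ m, n = m + 1 := ⟨n - 1, by omega⟩
      simp only [Nat.add_sub_cancel]
      ring
    omega
  refine cFrame_eq (ι := Fin n × Fin n) (κ := {p : Fin n × Fin n // p.1 < p.2} ⊕ Fin n) hN hdpos
    (by rw [Fintype.card_prod, Fintype.card_fin, sq]) hcard
    (fun q k => F q k / Real.sqrt ((n : ℝ) + 1)) ?_ ?_ ?_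
  · intro q
    have h1 := hinner q q
    simp only [if_true] at h1
    rw [hsq1] at h1
    have h2 : ∀ k, (F q k / Real.sqrt ((n : ℝ) + 1)) ^ 2 = (F q k * F q k) / ((n : ℝ) + 1) := by
      intro k
      rw [div_pow, Real.sq_sqrt hm.le, sq]
    simp only [h2]
    rw [← Finset.sum_div, h1, div_self hm0]
  · intro q r hqr
    have h2 : ∀ k, (F q k / Real.sqrt ((n : ℝ) + 1)) * (F r k / Real.sqrt ((n : ℝ) + 1)) =
        (F q k * F r k) / ((n : ℝ) + 1) := by
      intro k
      rw [div_mul_div_comm, Real.mul_self_sqrt hm.le]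
    simp only [h2]
    rw [← Finset.sum_div, hinner, hsqrt, abs_div, abs_of_pos hm]
    congr 1
    by_cases h1 : q.1 = r.1
    · have h3 : q.2 ≠ r.2 := fun h => hqr (Prod.ext h1 h)
      rw [if_pos h1, if_neg h3, zero_add, abs_mul, habs, habs, one_mul]
    · rw [if_neg h1, abs_mul, habs, habs, one_mul]
  · intro k l
    have h2 : ∀ q : Fin n × Fin n,
        (F q k / Real.sqrt ((n : ℝ) + 1)) * (F q l / Real.sqrt ((n : ℝ) + 1)) =
        (F q k * F q l) / ((n : ℝ) + 1) := by
      intro q
      rw [div_mul_div_comm, Real.mul_self_sqrt hm.le]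
    simp only [h2]
    rw [← Finset.sum_div, htight, hdR]
    split_ifs
    · push_cast
      field_simp
    · rw [zero_div]

end RealETF
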