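import Mathlib

/-!
# Complex frames: coherence and the optimal coherence
-/

set_option autoImplicit false

namespace ComplexETF

/-- The coherence `max_{k ≠ l} |⟨g k, g l⟩|` of a finite system of vectors in `ℂ^d`. -/
noncomputable def coherence {N d : ℕ} (g : Fin N → EuclideanSpace ℂ (Fin d)) : ℝ :=
  ⨆ p : {p : Fin N × Fin N // p.1 ≠ p.2}, ‖inner ℂ (g p.1.1) (g p.1.2)‖

/-- `c^frame_ℂ(N,d)`: the infimum of the coherence over all normalized frames of `N` vectors
in `ℂ^d`. -/
noncomputable def cFrame (N d : ℕ) : ℝ :=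
  sInf {m : ℝ | ∃ g : Fin N → EuclideanSpace ℂ (Fin d),
    (∀ k, ‖g k‖ = 1) ∧ Submodule.span ℂ (Set.range g) = ⊤ ∧ coherence g = m}

end ComplexETF
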