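import Pool.Agent.Lib_MP_3de5be_an.CTop
import Pool.Agent.Lib_MP_1c78a5_ghost.WH

/-!
# From a Weyl-Heisenberg covariant SIC fiducial to `d ^ 2` equiangular lines
-/

set_option autoImplicit false

namespace ComplexETF

open Ghost Finset
open scoped ComplexConjugate

theorem chi_norm {d : ℕ} [NeZero d] (x : ZMod d) : ‖(ZMod.stdAddChar x : ℂ)‖ = 1 := by
  have : (ZMod.stdAddChar x : ℂ) ^ d = 1 := by
    rw [← AddChar.map_nsmul_eq_pow]
    simp
  exact Complex.norm_eq_one_of_pow_eq_one this (NeZero.ne d)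

/-- the inner product of two displaced vectors -/
theorem disp_inner {d : ℕ} [NeZero d] (φ : ZMod d → ℂ) (a b a' b' : ZMod d) :
    ∑ i, conj ((displacement d a b).mulVec φ i) * (displacement d a' b').mulVec φ i =
      conj (ZMod.stdAddChar (b * (a' - a)) : ℂ) *
        braket φ (displacement d (a' - a) (b' - b)) φ := by
  rw [braket_disp, disp_mulVec, disp_mulVec]
  unfold ovl
  rw [← Equiv.sum_comp (Equiv.addRight a'), mul_sum]
  refine sum_congr rfl fun i _ => ?_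
  simp only [Equiv.coe_addRight, add_sub_cancel_right, map_mul]
  have h1 : i + a' - a = i + (a' - a) := by ring
  have h2 : (ZMod.stdAddChar (b' * i) : ℂ) =
      ZMod.stdAddChar (b * i) * ZMod.stdAddChar ((b' - b) * i) := by
    rw [← AddChar.map_add_eq_mul]
    congr 1
    ring
  have h3 : (ZMod.stdAddChar (b * (i + (a' - a))) : ℂ) =
      ZMod.stdAddChar (b * i) * ZMod.stdAddChar (b * (a' - a)) := by
    rw [← AddChar.map_add_eq_mul]
    congr 1
    ring
  have h4 : conj (ZMod.stdAddChar (b * i) : ℂ) * ZMod.stdAddChar (b * i) = 1 := by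
    rw [← Complex.normSq_eq_conj_mul_self, Complex.normSq_eq_norm_sq, chi_norm]
    simp
  rw [h1, h2, h3, map_mul]
  calc conj (ZMod.stdAddChar (b * i) : ℂ) * conj (ZMod.stdAddChar (b * (a' - a)) : ℂ) *
        conj (φ (i + (a' - a))) * (ZMod.stdAddChar (b * i) * ZMod.stdAddChar ((b' - b) * i) * φ i)
      = (conj (ZMod.stdAddChar (b * i) : ℂ) * ZMod.stdAddChar (b * i)) *
        (conj (ZMod.stdAddChar (b * (a' - a)) : ℂ) * (conj (φ (i + (a' - a))) *
          (ZMod.stdAddChar ((b' - b) * i) * φ i))) := by ring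
    _ = _ := by rw [h4, one_mul]

/-- `d ^ 2` equiangular lines from a fiducial vector -/
theorem lines_of_fiducial {d : ℕ} [NeZero d] (φ : ZMod d → ℂ) (h1 : ∑ i, ‖φ i‖ ^ 2 = 1)
    (h2 : ∀ a b : ZMod d, ¬(a = 0 ∧ b = 0) →
      ‖braket φ (displacement d a b) φ‖ ^ 2 = 1 / (d + 1)) :
    ∃ g : Fin (d ^ 2) → EuclideanSpace ℂ (Fin d),
      (∀ k, ‖g k‖ = 1) ∧ ∀ k l, k ≠ l → ‖(inner ℂ (g k) (g l) : ℂ)‖ ^ 2 = 1 / ((d : ℝ) + 1) := by
  classical
  have c1 : Fintype.card (ZMod d × ZMod d) = d ^ 2 := by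
    rw [Fintype.card_prod, ZMod.card]
    ring
  let e1 : Fin (d ^ 2) ≃ ZMod d × ZMod d := (Fintype.equivFinOfCardEq c1).symm
  let e2 : Fin d ≃ ZMod d := (Fintype.equivFinOfCardEq (ZMod.card d)).symm
  let g : Fin (d ^ 2) → EuclideanSpace ℂ (Fin d) := fun k =>
    WithLp.toLp 2 (fun i => (displacement d (e1 k).1 (e1 k).2).mulVec φ (e2 i))
  have hin : ∀ k l, (inner ℂ (g k) (g l) : ℂ) =
      conj (ZMod.stdAddChar ((e1 k).2 * ((e1 l).1 - (e1 k).1)) : ℂ) *
        braket φ (displacement d ((e1 l).1 - (e1 k).1) ((e1 l).2 - (e1 k).2)) φ := by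
    intro k l
    rw [← disp_inner, ← Equiv.sum_comp e2, PiLp.inner_apply]
    refine sum_congr rfl fun i _ => ?_
    simp [g, mul_comm]
  refine ⟨g, fun k => ?_, fun k l hkl => ?_⟩
  · have h3 : (inner ℂ (g k) (g k) : ℂ) = 1 := by
      rw [hin, sub_self, sub_self, mul_zero, AddChar.map_zero_eq_one, map_one, one_mul,
        braket_disp]
      unfold ovl
      have h4 : ∀ i, conj (φ (i + 0)) * ((ZMod.stdAddChar (0 * i) : ℂ) * φ i) =
          ((‖φ i‖ ^ 2 : ℝ) : ℂ) := by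
        intro i
        rw [add_zero, zero_mul, AddChar.map_zero_eq_one, one_mul,
          ← Complex.normSq_eq_conj_mul_self, Complex.normSq_eq_norm_sq]
      rw [sum_congr rfl fun i _ => h4 i, ← Complex.ofReal_sum, h1, Complex.ofReal_one]
    have h5 : ((‖g k‖ ^ 2 : ℝ) : ℂ) = 1 := by
      rw [← h3, inner_self_eq_norm_sq_to_K]
      simp
    have h6 : ‖g k‖ ^ 2 = 1 := by exact_mod_cast h5
    nlinarith [norm_nonneg (g k)]
  · have h3 : ¬((e1 l).1 - (e1 k).1 = 0 ∧ (e1 l).2 - (e1 k).2 = 0) := by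
      rintro ⟨h4, h5⟩
      apply hkl
      apply e1.injective
      exact (Prod.ext (sub_eq_zero.mp h4) (sub_eq_zero.mp h5)).symm
    rw [hin, norm_mul, RCLike.norm_conj, chi_norm, one_mul, h2 _ _ h3]

/-- **All pairs with `N > e^2 - e + 1`**, from the existence of Weyl-Heisenberg SICs. -/
theorem top_range_of_sic (H : ∀ (d : ℕ) [NeZero d], 2 ≤ d → ∃ φ : ZMod d → ℂ,
      ∑ i, ‖φ i‖ ^ 2 = 1 ∧ ∀ a b : ZMod d, ¬(a = 0 ∧ b = 0) →
        ‖braket φ (displacement d a b) φ‖ ^ 2 = 1 / (d + 1))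
    (N d e : ℕ) (hN : 2 ≤ N) (hd : 1 ≤ d) (hdN : d ≤ N) (he : e = d ∨ e = N - d) (he2 : 2 ≤ e)
    (hlt : e ^ 2 - e + 1 < N) :
    cFrame N d = Real.sqrt (((N : ℝ) - d) / (d * ((N : ℝ) - 1))) ↔ N = e ^ 2 := by
  refine top_range (fun m hm => ?_) N d e hN hd hdN he he2 hlt
  have : NeZero m := ⟨by omega⟩
  obtain ⟨φ, h1, h2⟩ := H m hm
  exact lines_of_fiducial φ h1 h2

end ComplexETF
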