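import Pool.Agent.Lib_MP_3de5be_an.CGap

/-!
# Maximal complex equiangular tight frames and the determination of all pairs with `N > e^2 - e + 1`
-/

set_option autoImplicit false

namespace ComplexETF

open Module

/-- the Welch bound -/
noncomputable def welchBd (N d : ℕ) : ℝ := Real.sqrt (((N : ℝ) - d) / (d * ((N : ℝ) - 1)))

/-- every unit norm system satisfies the Welch bound -/
theorem welch {N d : ℕ} (hN : 2 ≤ N) (hd : 1 ≤ d) (g : Fin N → EuclideanSpace ℂ (Fin d))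
    (hg : ∀ k, ‖g k‖ = 1) : welchBd N d ≤ coherence g := by
  by_contra hlt
  rw [not_le] at hlt
  have h0 := coherence_nonneg g
  have hα : 0 < ((N : ℝ) - d) / (d * ((N : ℝ) - 1)) := Real.sqrt_pos.mp (h0.trans_lt hlt)
  have hsq : welchBd N d ^ 2 = ((N : ℝ) - d) / (d * ((N : ℝ) - 1)) := Real.sq_sqrt hα.le
  have h1 := (welch_eq hd hN g _ rfl hg (fun l m hlm => by
    have h2 := inner_le_coherence g hlm
    calc ‖(inner ℂ (g l) (g m) : ℂ)‖ ^ 2 ≤ coherence g ^ 2 :=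
          pow_le_pow_left₀ (norm_nonneg _) h2 2
      _ ≤ welchBd N d ^ 2 := pow_le_pow_left₀ h0 hlt.le 2
      _ = _ := hsq)).1
  have hne : (⟨0, by omega⟩ : Fin N) ≠ ⟨1, by omega⟩ := by
    intro h
    have := congrArg Fin.val h
    simp at this
  have h2 := h1 _ _ hne
  have h3 := inner_le_coherence g hne
  have h4 : ‖(inner ℂ (g ⟨0, by omega⟩) (g ⟨1, by omega⟩) : ℂ)‖ ^ 2 < welchBd N d ^ 2 := by
    exact pow_lt_pow_left₀ (h3.trans_lt hlt) (norm_nonneg _) two_ne_zero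
  rw [h2, hsq] at h4
  exact lt_irrefl _ h4

/-- an equiangular system with the right angle attains the bound -/
theorem cFrame_eq {N d : ℕ} (hN : 2 ≤ N) (hd : 1 ≤ d) (hdN : d ≤ N)
    (g : Fin N → EuclideanSpace ℂ (Fin d)) (hg : ∀ k, ‖g k‖ = 1)
    (hang : ∀ l m, l ≠ m → ‖(inner ℂ (g l) (g m) : ℂ)‖ ^ 2 =
      ((N : ℝ) - d) / (d * ((N : ℝ) - 1))) : cFrame N d = welchBd N d := by
  have htight := (welch_eq hd hN g _ rfl hg (fun l m hlm => (hang l m hlm).le)).2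
  have hN0 : (N : ℂ) ≠ 0 := by exact_mod_cast (by omega : N ≠ 0)
  have hd0 : (d : ℂ) ≠ 0 := by exact_mod_cast (by omega : d ≠ 0)
  have hα : 0 ≤ ((N : ℝ) - d) / (d * ((N : ℝ) - 1)) := by
    have h1 : (d : ℝ) ≤ N := by exact_mod_cast hdN
    have h2 : (2 : ℝ) ≤ N := by exact_mod_cast hN
    exact div_nonneg (by linarith) (mul_nonneg (by positivity) (by linarith))
  have hspan : Submodule.span ℂ (Set.range g) = ⊤ := by
    rw [eq_top_iff]
    intro v _
    have h1 : v = ((d : ℂ) / N) • ∑ l, (inner ℂ (g l) v : ℂ) • g l := by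
      rw [htight v, smul_smul]
      have : (d : ℂ) / N * (N / d) = 1 := by field_simp
      rw [this, one_smul]
    rw [h1]
    exact Submodule.smul_mem _ _ (Submodule.sum_mem _ fun l _ =>
      Submodule.smul_mem _ _ (Submodule.subset_span ⟨l, rfl⟩))
  have hcoh : coherence g = welchBd N d := by
    unfold coherence
    have hne : Nonempty {p : Fin N × Fin N // p.1 ≠ p.2} :=
      ⟨⟨(⟨0, by omega⟩, ⟨1, by omega⟩), by simp [Fin.ext_iff]⟩⟩
    have hc : ∀ p : {p : Fin N × Fin N // p.1 ≠ p.2}, ‖(inner ℂ (g p.1.1) (g p.1.2) : ℂ)‖ =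
        welchBd N d := by
      intro p
      rw [welchBd, ← hang _ _ p.2, Real.sqrt_sq (norm_nonneg _)]
    simp only [hc]
    exact ciSup_const
  unfold cFrame
  refine IsLeast.csInf_eq ⟨⟨g, hg, hspan, hcoh⟩, ?_⟩
  rintro m ⟨g', hg', _, rfl⟩
  exact welch hN hd g' hg'

/-- Naimark complement, in coordinates -/
theorem exists_compl {N d : ℕ} (hN : 2 ≤ N) (hd : 1 ≤ d) (hdN : d < N)
    (g : Fin N → EuclideanSpace ℂ (Fin d)) (hg : ∀ k, ‖g k‖ = 1)
    (hang : ∀ l m, l ≠ m → ‖(inner ℂ (g l) (g m) : ℂ)‖ ^ 2 =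
      ((N : ℝ) - d) / (d * ((N : ℝ) - 1))) :
    ∃ y : Fin N → EuclideanSpace ℂ (Fin (N - d)), (∀ k, ‖y k‖ = 1) ∧
      ∀ l m, l ≠ m → ‖(inner ℂ (y l) (y m) : ℂ)‖ ^ 2 =
        ((N : ℝ) - (N - d : ℕ)) / ((N - d : ℕ) * ((N : ℝ) - 1)) := by
  have htight := (welch_eq hd hN g _ rfl hg (fun l m hlm => (hang l m hlm).le)).2
  obtain ⟨E', y, hE', hy1, hy2, -⟩ := compl hd hdN (by simp) g _ rfl hg hang htight
  let B := (stdOrthonormalBasis ℂ E').reindex (finCongr hE')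
  refine ⟨fun k => B.repr (y k), fun k => ?_, fun l m hlm => ?_⟩
  · rw [B.repr.norm_map, hy1]
  · rw [B.repr.inner_map_map, hy2 l m hlm]

/-- **All pairs with `N > e^2 - e + 1`.** The hypothesis is the existence of `d^2` equiangular lines
in every dimension. -/
theorem top_range (H : ∀ d : ℕ, 2 ≤ d → ∃ g : Fin (d ^ 2) → EuclideanSpace ℂ (Fin d),
      (∀ k, ‖g k‖ = 1) ∧ ∀ k l, k ≠ l → ‖(inner ℂ (g k) (g l) : ℂ)‖ ^ 2 = 1 / ((d : ℝ) + 1))
    (N d e : ℕ) (hN : 2 ≤ N) (hd : 1 ≤ d) (hdN : d ≤ N) (he : e = d ∨ e = N - d) (he2 : 2 ≤ e)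
    (hlt : e ^ 2 - e + 1 < N) :
    cFrame N d = Real.sqrt (((N : ℝ) - d) / (d * ((N : ℝ) - 1))) ↔ N = e ^ 2 := by
  constructor
  · intro h
    obtain ⟨h1, h2⟩ := gap N d hN hd hdN h
    rcases he with rfl | rfl
    · rcases h1 he2 with h3 | h3
      · exact h3
      · omega
    · rcases h2 he2 with h3 | h3
      · exact h3
      · omega
  · intro h
    obtain ⟨g, hg, hang⟩ := H e he2
    have he0 : (2 : ℝ) ≤ e := by exact_mod_cast he2
    have hee : 2 * e ≤ e ^ 2 := by nlinarith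
    have hang' : ∀ l m, l ≠ m → ‖(inner ℂ (g l) (g m) : ℂ)‖ ^ 2 =
        (((e ^ 2 : ℕ) : ℝ) - e) / (e * (((e ^ 2 : ℕ) : ℝ) - 1)) := by
      intro l m hlm
      rw [hang l m hlm]
      have h1 : (e : ℝ) ≠ 0 := by linarith
      have h2 : (e : ℝ) - 1 ≠ 0 := by linarith
      have h3 : (e : ℝ) + 1 ≠ 0 := by linarith
      have h4 : ((e ^ 2 : ℕ) : ℝ) - 1 = (e - 1) * (e + 1) := by push_cast; ring
      rw [h4]
      push_cast
      field_simp
    rcases he with rfl | he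
    · subst h
      exact cFrame_eq hN hd hdN g hg hang'
    · obtain ⟨y, hy, hyang⟩ := exists_compl (by omega : 2 ≤ e ^ 2) (by omega) (by omega) g hg hang'
      have hde : d = e ^ 2 - e := by omega
      subst h
      subst hde
      exact cFrame_eq hN hd hdN y hy hyang

end ComplexETF
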