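import Pool.Agent.Lib_MP_3de5be_an.RWel

/-!
# Piece RETF: an equiangular tight frame attains the bound
-/

set_option autoImplicit false

namespace RealETF

/-- An equiangular tight frame given as a matrix `G` with rows indexed by a type of cardinality `N`
and columns indexed by a type of cardinality `d`. PROOF. Choose bijections of the index types with
`Fin N`, `Fin d` and let `g k` be the row `k` (`WithLp.toLp 2`, `EuclideanSpace.inner_eq_star_dotProduct`
or `PiLp.inner_apply`). The vectors are unit vectors by `h1`, the coherence is the bound by `h2`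
(supremum of a constant function over the nonempty type of pairs, `ciSup_const`), and they span:
by `h3` every standard basis vector `e_b` is `(d / N) ∑_k g_k b • g_k`. So the bound is an element
of the set in the definition of `cFrame`; by `welch` it is a lower bound of it:
`IsLeast.csInf_eq`. -/
theorem cFrame_eq {ι κ : Type} [Fintype ι] [DecidableEq ι] [Fintype κ] [DecidableEq κ] {N d : ℕ}
    (hN : 2 ≤ N) (hd : 1 ≤ d) (hι : Fintype.card ι = N) (hκ : Fintype.card κ = d)
    (G : ι → κ → ℝ) (h1 : ∀ i, ∑ k, G i k ^ 2 = 1)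
    (h2 : ∀ i j, i ≠ j → |∑ k, G i k * G j k| =
      Real.sqrt (((N : ℝ) - d) / (d * ((N : ℝ) - 1))))
    (h3 : ∀ k l, ∑ i, G i k * G i l = if k = l then (N : ℝ) / d else 0) :
    cFrame N d = Real.sqrt (((N : ℝ) - d) / (d * ((N : ℝ) - 1))) := by
  classical
  have hN0 : (N : ℝ) ≠ 0 := by
    have : (2 : ℝ) ≤ N := by exact_mod_cast hN
    linarith
  have hd0 : (d : ℝ) ≠ 0 := by
    have : (1 : ℝ) ≤ d := by exact_mod_cast hd
    linarith
  let eι : ι ≃ Fin N := Fintype.equivFinOfCardEq hι
  let eκ : κ ≃ Fin d := Fintype.equivFinOfCardEq hκ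
  let g : Fin N → EuclideanSpace ℝ (Fin d) := fun k =>
    WithLp.toLp 2 (fun a => G (eι.symm k) (eκ.symm a))
  have hga : ∀ k a, g k a = G (eι.symm k) (eκ.symm a) := fun k a => rfl
  have hinner : ∀ k l, inner ℝ (g k) (g l) = ∑ c, G (eι.symm k) c * G (eι.symm l) c := by
    intro k l
    rw [PiLp.inner_apply]
    rw [← Equiv.sum_comp eκ.symm]
    refine Finset.sum_congr rfl fun a _ => ?_
    rw [hga, hga]
    simp [mul_comm]
  have hnorm : ∀ k, ‖g k‖ = 1 := by
    intro k
    have h : ‖g k‖ ^ 2 = 1 := by
      rw [← real_inner_self_eq_norm_sq, hinner]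
      rw [← h1 (eι.symm k)]
      exact Finset.sum_congr rfl fun c _ => by ring
    have h0 : 0 ≤ ‖g k‖ := norm_nonneg _
    nlinarith [h, h0]
  have hspan : Submodule.span ℝ (Set.range g) = ⊤ := by
    rw [eq_top_iff]
    intro x _
    have hx : x = ∑ k, ((d : ℝ) / N * ∑ b, g k b * x b) • g k := by
      ext a
      rw [WithLp.ofLp_sum, Finset.sum_apply]
      simp only [PiLp.smul_apply, smul_eq_mul]
      have hk : ∀ a b : Fin d, ∑ k, g k b * g k a = if b = a then (N : ℝ) / d else 0 := by
        intro a b
        have h := h3 (eκ.symm b) (eκ.symm a)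
        rw [← Equiv.sum_comp eι.symm] at h
        have h' : ∑ k, g k b * g k a = ∑ i, G (eι.symm i) (eκ.symm b) * G (eι.symm i) (eκ.symm a) :=
          Finset.sum_congr rfl fun k _ => by rw [hga, hga]
        rw [h', h]
        by_cases hab : b = a
        · simp [hab]
        · have : eκ.symm b ≠ eκ.symm a := fun h => hab (eκ.symm.injective h)
          simp [hab, this]
      calc x a = ∑ b, (d : ℝ) / N * x b * (if b = a then (N : ℝ) / d else 0) := by
            rw [Finset.sum_eq_single a]
            · rw [if_pos rfl]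
              field_simp
            · intro b _ hb
              rw [if_neg hb, mul_zero]
            · intro h
              exact absurd (Finset.mem_univ _) h
        _ = ∑ b, (d : ℝ) / N * x b * ∑ k, g k b * g k a := by
            refine Finset.sum_congr rfl fun b _ => ?_
            rw [hk a b]
        _ = ∑ b, ∑ k, (d : ℝ) / N * x b * (g k b * g k a) := by
            refine Finset.sum_congr rfl fun b _ => ?_
            rw [Finset.mul_sum]
        _ = ∑ k, ∑ b, (d : ℝ) / N * x b * (g k b * g k a) := Finset.sum_comm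
        _ = ∑ k, (d : ℝ) / N * (∑ b, g k b * x b) * g k a := by
            refine Finset.sum_congr rfl fun k _ => ?_
            rw [Finset.mul_sum, Finset.sum_mul]
            exact Finset.sum_congr rfl fun b _ => by ring
    rw [hx]
    exact Submodule.sum_mem _ fun k _ =>
      Submodule.smul_mem _ _ (Submodule.subset_span ⟨k, rfl⟩)
  have hcoh : coherence g = Real.sqrt (((N : ℝ) - d) / (d * ((N : ℝ) - 1))) := by
    unfold coherence
    have hne : Nonempty {p : Fin N × Fin N // p.1 ≠ p.2} :=
      ⟨⟨(⟨0, by omega⟩, ⟨1, by omega⟩), by simp [Fin.ext_iff]⟩⟩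
    have hc : ∀ p : {p : Fin N × Fin N // p.1 ≠ p.2}, |inner ℝ (g p.1.1) (g p.1.2)| =
        Real.sqrt (((N : ℝ) - d) / (d * ((N : ℝ) - 1))) := by
      intro p
      rw [hinner]
      exact h2 _ _ fun h => p.2 (eι.symm.injective h)
    simp only [hc]
    exact ciSup_const
  unfold cFrame
  refine IsLeast.csInf_eq ⟨⟨g, hnorm, hspan, hcoh⟩, ?_⟩
  rintro m ⟨g', hg', _, rfl⟩
  exact welch hN hd g' hg'

end RealETF
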