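import Pool.Agent.Lib_MP_3de5be_an.RDefs

/-!
# Piece RWEL: the (known) lower bound for the coherence
-/

set_option autoImplicit false

namespace RealETF

/-- PROOF. Let `S = ∑_k g_k g_kᵀ`, a `d × d` matrix with entries `S a b = ∑_k g_k a * g_k b`, trace `N`
(unit vectors) and `∑_{a,b} (S a b) ^ 2 = ∑_{k,l} ⟨g_k, g_l⟩ ^ 2`. By Cauchy-Schwarz
`N ^ 2 = (∑_a S a a) ^ 2 ≤ d ∑_a (S a a) ^ 2 ≤ d ∑_{k,l} ⟨g_k, g_l⟩ ^ 2 ≤ d (N + N (N - 1) M ^ 2)`
with `M = coherence g` (each term with `k ≠ l` is at most `M ^ 2`: the supremum is over a finite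
nonempty type, `le_ciSup (Set.finite_range _).bddAbove`). Rearrange:
`M ^ 2 ≥ (N - d) / (d (N - 1))`, and `M ≥ 0`. -/
theorem welch {N d : ℕ} (hN : 2 ≤ N) (hd : 1 ≤ d) (g : Fin N → EuclideanSpace ℝ (Fin d))
    (hg : ∀ k, ‖g k‖ = 1) :
    Real.sqrt (((N : ℝ) - d) / (d * ((N : ℝ) - 1))) ≤ coherence g := by
  obtain ⟨M, hM⟩ : ∃ M, M = coherence g := ⟨_, rfl⟩
  have hinner : ∀ k l : Fin N, inner ℝ (g k) (g l) = ∑ a, g k a * g l a := by
    intro k l
    rw [PiLp.inner_apply]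
    refine Finset.sum_congr rfl fun a _ => ?_
    simp [mul_comm]
  have hbd : ∀ k l : Fin N, k ≠ l → |inner ℝ (g k) (g l)| ≤ M := by
    intro k l hkl
    rw [hM]
    exact le_ciSup (f := fun p : {p : Fin N × Fin N // p.1 ≠ p.2} =>
      |inner ℝ (g p.1.1) (g p.1.2)|) (Set.finite_range _).bddAbove ⟨(k, l), hkl⟩
  have hM0 : 0 ≤ M := by
    have h1 : (⟨0, by omega⟩ : Fin N) ≠ ⟨1, by omega⟩ := by
      intro h
      have := congrArg Fin.val h
      simp at this
    exact (abs_nonneg _).trans (hbd _ _ h1)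
  have hself : ∀ k, ∑ a, g k a * g k a = 1 := by
    intro k
    rw [← hinner, real_inner_self_eq_norm_sq, hg k, one_pow]
  have hN' : (2 : ℝ) ≤ (N : ℝ) := by exact_mod_cast hN
  have hd' : (1 : ℝ) ≤ (d : ℝ) := by exact_mod_cast hd
  -- the trace
  have htr : ∑ a : Fin d, ∑ k : Fin N, g k a * g k a = (N : ℝ) := by
    rw [Finset.sum_comm, Finset.sum_congr rfl fun k _ => hself k]
    simp
  have hcs : (∑ a : Fin d, ∑ k : Fin N, g k a * g k a) ^ 2 ≤
      (d : ℝ) * ∑ a : Fin d, (∑ k : Fin N, g k a * g k a) ^ 2 := by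
    have h1 := sq_sum_le_card_mul_sum_sq (s := (Finset.univ : Finset (Fin d)))
      (f := fun a => ∑ k : Fin N, g k a * g k a)
    simpa using h1
  have hdiag : ∑ a : Fin d, (∑ k : Fin N, g k a * g k a) ^ 2 ≤
      ∑ a : Fin d, ∑ b : Fin d, (∑ k : Fin N, g k a * g k b) ^ 2 := by
    refine Finset.sum_le_sum fun a _ => ?_
    exact Finset.single_le_sum (f := fun b => (∑ k : Fin N, g k a * g k b) ^ 2)
      (fun b _ => sq_nonneg _) (Finset.mem_univ a)
  have hgram : ∑ a : Fin d, ∑ b : Fin d, (∑ k : Fin N, g k a * g k b) ^ 2 =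
      ∑ k : Fin N, ∑ l : Fin N, (∑ a : Fin d, g k a * g l a) ^ 2 := by
    have h1 : ∀ a b : Fin d, (∑ k : Fin N, g k a * g k b) ^ 2 =
        ∑ k : Fin N, ∑ l : Fin N, (g k a * g l a) * (g k b * g l b) := by
      intro a b
      rw [sq, Finset.sum_mul_sum]
      refine Finset.sum_congr rfl fun k _ => Finset.sum_congr rfl fun l _ => ?_
      ring
    have h2 : ∀ k l : Fin N, (∑ a : Fin d, g k a * g l a) ^ 2 =
        ∑ a : Fin d, ∑ b : Fin d, (g k a * g l a) * (g k b * g l b) := by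
      intro k l
      rw [sq, Finset.sum_mul_sum]
    calc ∑ a : Fin d, ∑ b : Fin d, (∑ k : Fin N, g k a * g k b) ^ 2
        = ∑ a : Fin d, ∑ b : Fin d, ∑ k : Fin N, ∑ l : Fin N,
            (g k a * g l a) * (g k b * g l b) :=
          Finset.sum_congr rfl fun a _ => Finset.sum_congr rfl fun b _ => h1 a b
      _ = ∑ a : Fin d, ∑ k : Fin N, ∑ l : Fin N, ∑ b : Fin d,
            (g k a * g l a) * (g k b * g l b) := by
          refine Finset.sum_congr rfl fun a _ => ?_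
          rw [Finset.sum_comm]
          exact Finset.sum_congr rfl fun k _ => Finset.sum_comm
      _ = ∑ k : Fin N, ∑ l : Fin N, ∑ a : Fin d, ∑ b : Fin d,
            (g k a * g l a) * (g k b * g l b) := by
          rw [Finset.sum_comm]
          exact Finset.sum_congr rfl fun k _ => Finset.sum_comm
      _ = _ := Finset.sum_congr rfl fun k _ => Finset.sum_congr rfl fun l _ => (h2 k l).symm
  have hrow : ∀ k : Fin N, ∑ l : Fin N, (∑ a : Fin d, g k a * g l a) ^ 2 ≤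
      1 + ((N : ℝ) - 1) * M ^ 2 := by
    intro k
    rw [← Finset.add_sum_erase _ _ (Finset.mem_univ k), hself k, one_pow]
    have h1 : ∑ l ∈ Finset.univ.erase k, (∑ a : Fin d, g k a * g l a) ^ 2 ≤
        ∑ _l ∈ (Finset.univ : Finset (Fin N)).erase k, M ^ 2 := by
      refine Finset.sum_le_sum fun l hl => ?_
      have h2 := hbd k l (Finset.ne_of_mem_erase hl).symm
      rw [hinner] at h2
      rw [← sq_abs]
      exact pow_le_pow_left₀ (abs_nonneg _) h2 2
    have h3 : ∑ _l ∈ (Finset.univ : Finset (Fin N)).erase k, M ^ 2 = ((N : ℝ) - 1) * M ^ 2 := by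
      rw [Finset.sum_const, Finset.card_erase_of_mem (Finset.mem_univ k), Finset.card_univ,
        Fintype.card_fin, nsmul_eq_mul, Nat.cast_sub (by omega), Nat.cast_one]
    linarith
  have htot : ∑ k : Fin N, ∑ l : Fin N, (∑ a : Fin d, g k a * g l a) ^ 2 ≤
      (N : ℝ) * (1 + ((N : ℝ) - 1) * M ^ 2) := by
    refine (Finset.sum_le_sum fun k _ => hrow k).trans (le_of_eq ?_)
    rw [Finset.sum_const, Finset.card_univ, Fintype.card_fin, nsmul_eq_mul]
  rw [htr] at hcs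
  have hmain : (N : ℝ) ^ 2 ≤ (d : ℝ) * ((N : ℝ) * (1 + ((N : ℝ) - 1) * M ^ 2)) := by
    refine hcs.trans (mul_le_mul_of_nonneg_left ?_ (by linarith))
    exact hdiag.trans (hgram.le.trans htot)
  have hmain2 : (N : ℝ) ≤ (d : ℝ) * (1 + ((N : ℝ) - 1) * M ^ 2) := by
    have h1 : (N : ℝ) * N ≤ (N : ℝ) * ((d : ℝ) * (1 + ((N : ℝ) - 1) * M ^ 2)) := by
      calc (N : ℝ) * N = (N : ℝ) ^ 2 := by ring
        _ ≤ _ := hmain
        _ = _ := by ring
    exact le_of_mul_le_mul_left h1 (by linarith)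
  rw [← hM]
  refine Real.sqrt_le_iff.2 ⟨hM0, ?_⟩
  rw [div_le_iff₀ (mul_pos (by linarith) (by linarith))]
  linarith

end RealETF
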